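import Mathlib

/-!
# RD.Arith : the arithmetic core of the S-integral Anning-Erdos theorem (helper65, helper43)
-/

namespace H43.RD

open Polynomial

/-- a number near 1 is a square in `ℚ_[p]` -/
theorem sq_of_near (p : ℕ) [Fact p.Prime] (δ : ℚ_[p]) (h : ‖δ‖ < ‖(4 : ℚ_[p])‖) :
    ∃ z : ℚ_[p], z ^ 2 = 1 + δ := by
  have h4 : ‖(4 : ℚ_[p])‖ ≤ 1 := by
    have := Padic.norm_int_le_one (p := p) 4
    simpa using this
  have hc : ‖1 + δ‖ ≤ 1 :=
    (Padic.nonarchimedean 1 δ).trans (max_le (by simp) (h.le.trans h4))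
  let c : ℤ_[p] := ⟨1 + δ, hc⟩
  have hn : ‖(X ^ 2 - C c : ℤ_[p][X]).aeval (1 : ℤ_[p])‖ <
      ‖(X ^ 2 - C c : ℤ_[p][X]).derivative.aeval (1 : ℤ_[p])‖ ^ 2 := by
    have e1 : (X ^ 2 - C c : ℤ_[p][X]).aeval (1 : ℤ_[p]) = 1 - c := by simp
    have e2 : (X ^ 2 - C c : ℤ_[p][X]).derivative.aeval (1 : ℤ_[p]) = 2 := by
      simp only [derivative_sub, derivative_X_pow, derivative_C, sub_zero, map_mul, map_natCast, aeval_X,
        map_pow]
      norm_num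
    rw [e1, e2, ← norm_pow, PadicInt.norm_def, PadicInt.norm_def]
    have e3 : ((1 - c : ℤ_[p]) : ℚ_[p]) = - δ := by
      push_cast
      show 1 - (1 + δ) = - δ
      ring
    have e4 : (((2 : ℤ_[p]) ^ 2 : ℤ_[p]) : ℚ_[p]) = 4 := by
      have : ((2 : ℤ_[p]) : ℚ_[p]) = 2 := rfl
      push_cast
      rw [this]
      norm_num
    rw [e3, e4, norm_neg]
    exact h
  obtain ⟨z, hz, -⟩ := hensels_lemma hn
  refine ⟨(z : ℚ_[p]), ?_⟩
  have e1 : (X ^ 2 - C c : ℤ_[p][X]).aeval z = z ^ 2 - c := by simp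
  rw [e1, sub_eq_zero] at hz
  have : ((z ^ 2 : ℤ_[p]) : ℚ_[p]) = (c : ℚ_[p]) := by rw [hz]
  push_cast at this
  exact this

/-- anisotropy at a prime at which `-D` is not a square -/
theorem aniso (p : ℕ) [Fact p.Prime] (D u y : ℚ_[p]) (hD : ¬ IsSquare (-D)) :
    ‖4 * D * y ^ 2‖ ≤ ‖u ^ 2 + D * y ^ 2‖ := by
  by_contra hcon
  push Not at hcon
  have h4 : ‖(4 : ℚ_[p])‖ ≤ 1 := by
    have := Padic.norm_int_le_one (p := p) 4
    simpa using this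
  have h4D : ‖4 * D * y ^ 2‖ ≤ ‖D * y ^ 2‖ := by
    rw [mul_assoc, norm_mul]
    exact mul_le_of_le_one_left (norm_nonneg _) h4
  have hu : ‖u ^ 2‖ = ‖D * y ^ 2‖ := by
    by_contra hne
    have := Padic.add_eq_max_of_ne hne
    have h1 : ‖D * y ^ 2‖ ≤ ‖u ^ 2 + D * y ^ 2‖ := this ▸ le_max_right _ _
    linarith
  have hDy : D * y ^ 2 ≠ 0 := by
    intro h0
    rw [mul_assoc, h0] at hcon
    simp at hcon
    linarith [sq_nonneg ‖u‖]
  have hu0 : u ≠ 0 := by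
    rintro rfl
    simp at hu
    rcases hu with h | h
    · exact hDy (by rw [h, zero_mul])
    · exact hDy (by rw [h]; ring)
  have hy0 : y ≠ 0 := by
    rintro rfl
    exact hDy (by ring)
  obtain ⟨z, hz⟩ := sq_of_near p (-(u ^ 2 + D * y ^ 2) / u ^ 2) (by
    rw [norm_div, norm_neg, div_lt_iff₀ (norm_pos_iff.2 (pow_ne_zero 2 hu0)), hu, ← norm_mul, ← mul_assoc]
    exact hcon)
  apply hD
  refine ⟨u * z / y, ?_⟩
  have : u * z / y * (u * z / y) = u ^ 2 * z ^ 2 / y ^ 2 := by ring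
  rw [this, hz]
  field_simp
  ring

/-- a rational number which is integral at every prime is an integer -/
theorem int_of_norm (q : ℚ) (h : ∀ (p : ℕ) [Fact p.Prime], ‖(q : ℚ_[p])‖ ≤ 1) : ∃ z : ℤ, q = z := by
  have hden : q.den = 1 := by
    by_contra hne
    obtain ⟨p, hp, hpd⟩ := Nat.exists_prime_and_dvd hne
    have : Fact p.Prime := ⟨hp⟩
    have h1 := h p
    have hnum : ¬ (p : ℤ) ∣ q.num := by
      intro hd
      have hco := q.reduced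
      have : p ∣ q.num.natAbs := Int.natCast_dvd.1 hd
      exact hp.one_lt.ne' (Nat.dvd_one.1 (hco ▸ Nat.dvd_gcd this hpd))
    have h2 : ‖((q.num : ℤ) : ℚ_[p])‖ = 1 := by
      refine le_antisymm (Padic.norm_int_le_one _) ?_
      by_contra hlt
      push Not at hlt
      exact hnum (Padic.norm_intCast_lt_one_iff.1 hlt)
    have h3 : ‖((q.den : ℤ) : ℚ_[p])‖ < 1 :=
      Padic.norm_intCast_lt_one_iff.2 (by exact_mod_cast hpd)
    have h4 : (q : ℚ_[p]) * ((q.den : ℤ) : ℚ_[p]) = ((q.num : ℤ) : ℚ_[p]) := by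
      have : q * ((q.den : ℤ) : ℚ) = ((q.num : ℤ) : ℚ) := by
        push_cast
        exact Rat.mul_den_eq_num q
      have h5 := congrArg (fun t : ℚ => (t : ℚ_[p])) this
      push_cast at h5 ⊢
      exact h5
    have h6 : ‖(q : ℚ_[p])‖ * ‖((q.den : ℤ) : ℚ_[p])‖ = 1 := by
      rw [← norm_mul, h4, h2]
    nlinarith [norm_nonneg (q : ℚ_[p]), norm_nonneg (((q.den : ℤ)) : ℚ_[p])]
  exact ⟨q.num, by
    conv_lhs => rw [← Rat.num_div_den q, hden]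
    simp⟩

theorem big (p : ℕ) [Fact p.Prime] (M a c : ℚ_[p]) (hM : ‖M‖ ≤ 1) (ha : 1 < ‖M * a‖)
    (hac : ‖M * (a ^ 2 - c ^ 2)‖ ≤ max ‖c‖ 1) : ‖a‖ = ‖c‖ ∧ 1 < ‖c‖ := by
  rw [norm_mul] at ha hac
  have ha1 : 1 < ‖a‖ := by
    by_contra h
    push Not at h
    have : ‖M‖ * ‖a‖ ≤ 1 * 1 := mul_le_mul hM h (norm_nonneg _) zero_le_one
    linarith
  by_cases hne : ‖a‖ = ‖c‖
  · exact ⟨hne, hne ▸ ha1⟩
  · exfalso
    have hne2 : ‖a ^ 2‖ ≠ ‖-(c ^ 2)‖ := by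
      rw [norm_neg, norm_pow, norm_pow]
      intro h
      exact hne ((pow_left_inj₀ (norm_nonneg _) (norm_nonneg _) two_ne_zero).1 h)
    have h1 : ‖a ^ 2 - c ^ 2‖ = max (‖a‖ ^ 2) (‖c‖ ^ 2) := by
      rw [sub_eq_add_neg, Padic.add_eq_max_of_ne hne2, norm_neg, norm_pow, norm_pow]
    rw [h1] at hac
    set μ := max ‖a‖ ‖c‖ with hμ
    have hμ1 : 1 < μ := lt_of_lt_of_le ha1 (le_max_left _ _)
    have h2 : μ ^ 2 ≤ max (‖a‖ ^ 2) (‖c‖ ^ 2) := by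
      rcases max_choice ‖a‖ ‖c‖ with h | h
      · rw [hμ, h]; exact le_max_left _ _
      · rw [hμ, h]; exact le_max_right _ _
    have h3 : max ‖c‖ 1 ≤ μ := max_le (le_max_right _ _) hμ1.le
    have h4 : ‖M‖ * μ ^ 2 ≤ μ := (mul_le_mul_of_nonneg_left h2 (norm_nonneg _)).trans (hac.trans h3)
    have h5 : ‖M‖ * ‖a‖ ≤ ‖M‖ * μ := mul_le_mul_of_nonneg_left (le_max_left _ _) (norm_nonneg _)
    have h6 : μ * (‖M‖ * μ) ≤ μ * 1 := by nlinarith
    have h7 := le_of_mul_le_mul_left h6 (by linarith)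
    linarith

theorem two_aux (p : ℕ) [Fact p.Prime] (M a b c : ℚ_[p]) (hM : ‖M‖ ≤ 1) (ha : 1 < ‖M * a‖)
    (hac : ‖M * (a ^ 2 - c ^ 2)‖ ≤ max ‖c‖ 1) (hab : ‖M * (a ^ 2 - b ^ 2)‖ ≤ max ‖c‖ 1) :
    ‖2 * M * (a - b)‖ ≤ 1 ∨ ‖2 * M * (a + b)‖ ≤ 1 := by
  obtain ⟨h1, h2⟩ := big p M a c hM ha hac
  by_contra hcon
  push Not at hcon
  obtain ⟨hu, hv⟩ := hcon
  rw [max_eq_left h2.le, ← h1] at hab
  have e1 : M * (a ^ 2 - b ^ 2) = M * (a - b) * (a + b) := by ring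
  rw [e1, norm_mul, norm_mul] at hab
  rw [norm_mul, norm_mul] at hu hv
  have h3 : ‖2 * a‖ ≤ max ‖a - b‖ ‖a + b‖ := by
    have : 2 * a = (a - b) + (a + b) := by ring
    rw [this]
    exact Padic.nonarchimedean _ _
  rw [norm_mul] at h3
  have hM0 := norm_nonneg M
  have hu0 := norm_nonneg (a - b)
  have hv0 := norm_nonneg (a + b)
  have h20 := norm_nonneg (2 : ℚ_[p])
  rcases max_choice ‖a - b‖ ‖a + b‖ with h | h
  · rw [h] at h3
    have hpos : 0 < ‖a - b‖ := by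
      rcases hu0.lt_or_eq with h | h
      · exact h
      · rw [← h, mul_zero] at hu; linarith
    have h5 : ‖a - b‖ < ‖a - b‖ * (‖(2 : ℚ_[p])‖ * ‖M‖ * ‖a + b‖) := by nlinarith
    have h6 : ‖(2 : ℚ_[p])‖ * (‖M‖ * ‖a - b‖ * ‖a + b‖) ≤ ‖(2 : ℚ_[p])‖ * ‖a‖ :=
      mul_le_mul_of_nonneg_left hab h20
    nlinarith
  · rw [h] at h3
    have hpos : 0 < ‖a + b‖ := by
      rcases hv0.lt_or_eq with h | h
      · exact h
      · rw [← h, mul_zero] at hv; linarith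
    have h5 : ‖a + b‖ < ‖a + b‖ * (‖(2 : ℚ_[p])‖ * ‖M‖ * ‖a - b‖) := by nlinarith
    have h6 : ‖(2 : ℚ_[p])‖ * (‖M‖ * ‖a - b‖ * ‖a + b‖) ≤ ‖(2 : ℚ_[p])‖ * ‖a‖ :=
      mul_le_mul_of_nonneg_left hab h20
    nlinarith

theorem norm_two_le (p : ℕ) [Fact p.Prime] : ‖(2 : ℚ_[p])‖ ≤ 1 := by
  have := Padic.norm_int_le_one (p := p) 2
  simpa using this

/-- two classes: the distances `a`, `b` agree up to sign modulo `1 / (2 M)` -/
theorem two_classes (p : ℕ) [Fact p.Prime] (M a b c : ℚ_[p]) (hM : ‖M‖ ≤ 1)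
    (hac : ‖M * (a ^ 2 - c ^ 2)‖ ≤ max ‖c‖ 1) (hbc : ‖M * (b ^ 2 - c ^ 2)‖ ≤ max ‖c‖ 1)
    (hab : ‖M * (a ^ 2 - b ^ 2)‖ ≤ max ‖c‖ 1) :
    ‖2 * M * (a - b)‖ ≤ 1 ∨ ‖2 * M * (a + b)‖ ≤ 1 := by
  by_cases ha : 1 < ‖M * a‖
  · exact two_aux p M a b c hM ha hac hab
  by_cases hb : 1 < ‖M * b‖
  · have hba : ‖M * (b ^ 2 - a ^ 2)‖ ≤ max ‖c‖ 1 := by
      have : M * (b ^ 2 - a ^ 2) = -(M * (a ^ 2 - b ^ 2)) := by ring
      rw [this, norm_neg]
      exact hab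
    rcases two_aux p M b a c hM hb hbc hba with h | h
    · left
      have : 2 * M * (a - b) = -(2 * M * (b - a)) := by ring
      rw [this, norm_neg]
      exact h
    · right
      rw [add_comm a b]
      exact h
  · left
    push Not at ha hb
    have e : 2 * M * (a - b) = 2 * (M * a + -(M * b)) := by ring
    rw [e, norm_mul]
    have h1 : ‖M * a + -(M * b)‖ ≤ 1 :=
      (Padic.nonarchimedean _ _).trans (max_le ha (by rw [norm_neg]; exact hb))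
    exact mul_le_one₀ (norm_two_le p) (norm_nonneg _) h1

theorem norm_nat_le (p : ℕ) [Fact p.Prime] (n : ℕ) : ‖(n : ℚ_[p])‖ ≤ 1 := by
  have := Padic.norm_int_le_one (p := p) n
  simpa using this

theorem norm_mul_den (p : ℕ) [Fact p.Prime] (q : ℚ) (E : ℕ) (h : q.den ∣ E) :
    ‖(E : ℚ_[p]) * (q : ℚ_[p])‖ ≤ 1 := by
  obtain ⟨c, rfl⟩ := h
  have e : ((q.den * c : ℕ) : ℚ) * q = ((c * q.num : ℤ) : ℚ) := by
    push_cast
    have := Rat.mul_den_eq_num q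
    linear_combination (c : ℚ) * this
  have e2 : (((q.den * c : ℕ) : ℚ_[p])) * (q : ℚ_[p]) = ((c * q.num : ℤ) : ℚ_[p]) := by
    have := congrArg (fun t : ℚ => (t : ℚ_[p])) e
    push_cast at this ⊢
    exact this
  rw [e2]
  exact Padic.norm_int_le_one _

theorem norm_fact_mul (p : ℕ) [Fact p.Prime] (d : ℚ) (a b T : ℕ) (h : d.den = a * b) (hb : b ≤ T)
    (hp : ¬ p ∣ a) : ‖((T.factorial : ℕ) : ℚ_[p]) * (d : ℚ_[p])‖ ≤ 1 := by
  have hb0 : 0 < b := by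
    rcases Nat.eq_zero_or_pos b with h0 | h0
    · rw [h0, mul_zero] at h; exact absurd h d.den_nz
    · exact h0
  have hbT : b ∣ T.factorial := Nat.dvd_factorial hb0 hb
  have h1 : ‖((a * T.factorial : ℕ) : ℚ_[p]) * (d : ℚ_[p])‖ ≤ 1 :=
    norm_mul_den p d _ (h ▸ mul_dvd_mul_left a hbT)
  have h2 : ‖(a : ℚ_[p])‖ = 1 := by
    refine le_antisymm (norm_nat_le p a) ?_
    by_contra hlt
    push Not at hlt
    have h3 : ‖((a : ℤ) : ℚ_[p])‖ < 1 := by simpa using hlt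
    exact hp (by exact_mod_cast Padic.norm_intCast_lt_one_iff.1 h3)
  have e : ((a * T.factorial : ℕ) : ℚ_[p]) * (d : ℚ_[p]) =
      (a : ℚ_[p]) * (((T.factorial : ℕ) : ℚ_[p]) * (d : ℚ_[p])) := by
    push_cast
    ring
  rw [e, norm_mul, h2, one_mul] at h1
  exact h1

/-- the constants `E`: at a nonsplit prime `E x`, `E y` are at most `d` -/
theorem coord_bound (p : ℕ) [Fact p.Prime] (g11 g12 g22 D x y d : ℚ) (E : ℕ)
    (hD : D = g11 * g22 - g12 ^ 2) (hD0 : D ≠ 0)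
    (h1 : (g11 / (4 * D)).den ∣ E) (h2 : (g22 / (4 * D)).den ∣ E)
    (hd : d ^ 2 = g11 * x ^ 2 + 2 * g12 * x * y + g22 * y ^ 2)
    (hns : ¬ IsSquare (-(D : ℚ_[p]))) :
    ‖(E : ℚ_[p]) * (x : ℚ_[p])‖ ≤ ‖(d : ℚ_[p])‖ ∧ ‖(E : ℚ_[p]) * (y : ℚ_[p])‖ ≤ ‖(d : ℚ_[p])‖ := by
  have hD0' : (D : ℚ_[p]) ≠ 0 := by exact_mod_cast hD0
  have h4D : (4 * (D : ℚ_[p])) ≠ 0 := mul_ne_zero (by norm_num) hD0'
  have key : ∀ (g z : ℚ), (g / (4 * D)).den ∣ E →
      ‖4 * (D : ℚ_[p]) * (z : ℚ_[p]) ^ 2‖ ≤ ‖(g : ℚ_[p]) * (d : ℚ_[p]) ^ 2‖ →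
      ‖(E : ℚ_[p]) * (z : ℚ_[p])‖ ≤ ‖(d : ℚ_[p])‖ := by
    intro g z hg hz
    have hE := norm_mul_den p _ E hg
    have hEE : ‖(E : ℚ_[p]) ^ 2 * ((g / (4 * D) : ℚ) : ℚ_[p])‖ ≤ 1 := by
      have : (E : ℚ_[p]) ^ 2 * ((g / (4 * D) : ℚ) : ℚ_[p]) =
        (E : ℚ_[p]) * ((E : ℚ_[p]) * ((g / (4 * D) : ℚ) : ℚ_[p])) := by ring
      rw [this, norm_mul]
      exact mul_le_one₀ (norm_nat_le p E) (norm_nonneg _) hE
    have e1 : ‖4 * (D : ℚ_[p])‖ * ‖(E : ℚ_[p]) * (z : ℚ_[p])‖ ^ 2 =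
        ‖(E : ℚ_[p])‖ ^ 2 * ‖4 * (D : ℚ_[p]) * (z : ℚ_[p]) ^ 2‖ := by
      rw [norm_mul, norm_mul, norm_mul, norm_mul, norm_pow]
      ring
    have e2 : ‖(E : ℚ_[p])‖ ^ 2 * ‖(g : ℚ_[p]) * (d : ℚ_[p]) ^ 2‖ =
        ‖(E : ℚ_[p]) ^ 2 * ((g / (4 * D) : ℚ) : ℚ_[p])‖ * (‖4 * (D : ℚ_[p])‖ * ‖(d : ℚ_[p])‖ ^ 2) := by
      rw [← norm_pow, ← norm_pow, ← norm_mul, ← norm_mul, ← norm_mul]
      congr 1
      push_cast
      field_simp
    have h3 : ‖4 * (D : ℚ_[p])‖ * ‖(E : ℚ_[p]) * (z : ℚ_[p])‖ ^ 2 ≤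
        ‖4 * (D : ℚ_[p])‖ * ‖(d : ℚ_[p])‖ ^ 2 := by
      rw [e1]
      refine (mul_le_mul_of_nonneg_left hz (by positivity)).trans ?_
      rw [e2]
      exact mul_le_of_le_one_left (by positivity) hEE
    have h4 := le_of_mul_le_mul_left h3 (norm_pos_iff.2 h4D)
    exact (pow_le_pow_iff_left₀ (norm_nonneg _) (norm_nonneg _) two_ne_zero).1 h4
  have hcast : ((d : ℚ_[p])) ^ 2 = g11 * x ^ 2 + 2 * g12 * x * y + g22 * y ^ 2 := by
    exact_mod_cast congrArg (fun t : ℚ => (t : ℚ_[p])) hd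
  have hDc : (D : ℚ_[p]) = g11 * g22 - g12 ^ 2 := by
    exact_mod_cast congrArg (fun t : ℚ => (t : ℚ_[p])) hD
  constructor
  · apply key g22 x h2
    have := aniso p (D : ℚ_[p]) (g22 * y + g12 * x) x hns
    refine this.trans (le_of_eq ?_)
    congr 1
    rw [hcast, hDc]
    ring
  · apply key g11 y h1
    have := aniso p (D : ℚ_[p]) (g11 * x + g12 * y) y hns
    refine this.trans (le_of_eq ?_)
    congr 1
    rw [hcast, hDc]
    ring

/-- pigeonhole: three indices with the same value -/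
theorem three_same {β : Type*} [DecidableEq β] (S : Finset β) (r : ℕ) (hS : S.card ≤ r)
    (f : Fin (2 * 2 ^ r + 1) → Finset β) (hf : ∀ i, f i ⊆ S) :
    ∃ i j l, i ≠ j ∧ i ≠ l ∧ j ≠ l ∧ f i = f j ∧ f i = f l := by
  have hmaps : ∀ i ∈ (Finset.univ : Finset (Fin (2 * 2 ^ r + 1))), f i ∈ S.powerset :=
    fun i _ => Finset.mem_powerset.2 (hf i)
  have hcard : S.powerset.card * 2 < (Finset.univ : Finset (Fin (2 * 2 ^ r + 1))).card := by
    rw [Finset.card_powerset, Finset.card_univ, Fintype.card_fin]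
    have : 2 ^ S.card ≤ 2 ^ r := Nat.pow_le_pow_right (by norm_num) hS
    omega
  obtain ⟨v, -, hv⟩ := Finset.exists_lt_card_fiber_of_mul_lt_card_of_maps_to hmaps hcard
  obtain ⟨i, j, l, hi, hj, hl, hij, hil, hjl⟩ := Finset.two_lt_card_iff.1 hv
  rw [Finset.mem_filter] at hi hj hl
  exact ⟨i, j, l, hij, hil, hjl, hi.2.trans hj.2.symm, hi.2.trans hl.2.symm⟩

/-- the norm of the denominator -/
theorem den_norm (p : ℕ) [Fact p.Prime] (q : ℚ) :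
    ‖((q.den : ℤ) : ℚ_[p])‖ * max ‖(q : ℚ_[p])‖ 1 = 1 := by
  by_cases hp : p ∣ q.den
  · have hnum : ¬ (p : ℤ) ∣ q.num := by
      intro hdv
      have hpp : p.Prime := Fact.out
      have : p ∣ q.num.natAbs := Int.natCast_dvd.1 hdv
      exact hpp.one_lt.ne' (Nat.dvd_one.1 (q.reduced ▸ Nat.dvd_gcd this hp))
    have h3 : ‖((q.num : ℤ) : ℚ_[p])‖ = 1 := by
      refine le_antisymm (Padic.norm_int_le_one _) ?_
      by_contra hlt
      push Not at hlt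
      exact hnum (Padic.norm_intCast_lt_one_iff.1 hlt)
    have h4 : ‖((q.den : ℤ) : ℚ_[p])‖ < 1 :=
      Padic.norm_intCast_lt_one_iff.2 (by exact_mod_cast hp)
    have h5 : (q : ℚ_[p]) * ((q.den : ℤ) : ℚ_[p]) = ((q.num : ℤ) : ℚ_[p]) := by
      have : q * ((q.den : ℤ) : ℚ) = ((q.num : ℤ) : ℚ) := by
        push_cast
        exact Rat.mul_den_eq_num q
      have h5 := congrArg (fun t : ℚ => (t : ℚ_[p])) this
      push_cast at h5 ⊢
      exact h5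
    have h6 : ‖(q : ℚ_[p])‖ * ‖((q.den : ℤ) : ℚ_[p])‖ = 1 := by
      rw [← norm_mul, h5, h3]
    have h7 : 1 ≤ ‖(q : ℚ_[p])‖ := by
      by_contra hlt
      push Not at hlt
      nlinarith [norm_nonneg (q : ℚ_[p]), norm_nonneg (((q.den : ℤ)) : ℚ_[p])]
    rw [max_eq_left h7, mul_comm]
    exact h6
  · have h3 : ‖(q : ℚ_[p])‖ ≤ 1 := Padic.norm_rat_le_one hp
    rw [max_eq_right h3, mul_one]
    refine le_antisymm (Padic.norm_int_le_one _) ?_
    by_contra hlt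
    push Not at hlt
    have := Padic.norm_intCast_lt_one_iff.1 hlt
    exact hp (by exact_mod_cast this)

theorem not_dvd_den (p : ℕ) [Fact p.Prime] (q : ℚ) (h : ‖(q : ℚ_[p])‖ ≤ 1) : ¬ p ∣ q.den := by
  intro hp
  have h1 := den_norm p q
  rw [max_eq_right h, mul_one] at h1
  have h2 : ‖((q.den : ℤ) : ℚ_[p])‖ < 1 :=
    Padic.norm_intCast_lt_one_iff.2 (by exact_mod_cast hp)
  linarith

/-- the arithmetic core: `q` is the distance to the origin, `x`, `y` are the coordinates, `d i` the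
other distances -/
theorem arith (r T : ℕ) (α β γ : Fin (2 * 2 ^ r + 1) → ℚ) :
    ∃ M : ℕ, 0 < M ∧ ∀ (x y q : ℚ) (d : Fin (2 * 2 ^ r + 1) → ℚ),
      (∀ i, (d i) ^ 2 = q ^ 2 - 2 * (x * α i + y * β i) + γ i) →
      (∃ a b : ℕ, q.den = a * b ∧ b ≤ T ∧ a.primeFactors.card ≤ r) →
      (∃ n n' : ℤ, T * q.den * x = n ∧ T * q.den * y = n') →
      ∃ i j l, i ≠ j ∧ i ≠ l ∧ j ≠ l ∧ ∃ n n' : ℤ, (M : ℚ) * (d i - d j) = n ∧
        (M : ℚ) * (d i - d l) = n' := by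
  classical
  set L : ℕ := ∏ i, ((α i).den * ((β i).den * (γ i).den)) with hL
  have hLpos : 0 < L := Finset.prod_pos fun i _ =>
    Nat.mul_pos (Rat.den_pos _) (Nat.mul_pos (Rat.den_pos _) (Rat.den_pos _))
  have hLi : ∀ i, ((α i).den * ((β i).den * (γ i).den)) ∣ L := fun i =>
    Finset.dvd_prod_of_mem _ (Finset.mem_univ i)
  have hα : ∀ i, (α i).den ∣ L := fun i => (Dvd.intro _ rfl).trans (hLi i)
  have hβ : ∀ i, (β i).den ∣ L := fun i =>
    ((Dvd.intro _ rfl : (β i).den ∣ (β i).den * (γ i).den).trans (Dvd.intro_left _ rfl)).trans (hLi i)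
  have hγ : ∀ i, (γ i).den ∣ L := fun i =>
    ((Dvd.intro_left _ rfl : (γ i).den ∣ (β i).den * (γ i).den).trans
      (Dvd.intro_left _ rfl)).trans (hLi i)
  set N : ℕ := T.factorial with hN
  have hNpos : 0 < N := Nat.factorial_pos T
  set M : ℕ := N * L with hM
  have hMpos : 0 < M := Nat.mul_pos hNpos hLpos
  refine ⟨2 * M * N, by positivity, ?_⟩
  intro x y q d hd ht hxy
  obtain ⟨a, b, hab, hbT, har⟩ := ht
  obtain ⟨n1, n2, hn1, hn2⟩ := hxy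
  have hT0 : 0 < T := by
    rcases Nat.eq_zero_or_pos T with h | h
    · exfalso
      have hb0 : b = 0 := by omega
      rw [hb0, mul_zero] at hab
      exact q.den_nz hab
    · exact h
  have hTN : T ∣ N := Nat.dvd_factorial hT0 le_rfl
  -- the coordinates
  have hco : ∀ (p : ℕ) [Fact p.Prime] (z : ℚ) (n : ℤ), T * q.den * z = n →
      ‖(N : ℚ_[p]) * (z : ℚ_[p])‖ ≤ max ‖(q : ℚ_[p])‖ 1 := by
    intro p _ z n hz
    have h1 : ‖((q.den : ℤ) : ℚ_[p]) * ((N : ℚ_[p]) * (z : ℚ_[p]))‖ ≤ 1 := by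
      obtain ⟨c, hc⟩ := hTN
      have e : ((q.den : ℤ) : ℚ_[p]) * ((N : ℚ_[p]) * (z : ℚ_[p])) = ((c * n : ℤ) : ℚ_[p]) := by
        have e1 : (q.den : ℚ) * ((N : ℚ) * z) = ((c * n : ℤ) : ℚ) := by
          rw [hc]
          push_cast
          rw [← hz]
          ring
        have := congrArg (fun t : ℚ => (t : ℚ_[p])) e1
        push_cast at this ⊢
        exact this
      rw [e]
      exact Padic.norm_int_le_one _
    rw [norm_mul] at h1
    have hden0 : ((q.den : ℤ) : ℚ_[p]) ≠ 0 := by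
      have : (q.den : ℤ) ≠ 0 := by exact_mod_cast q.den_nz
      exact_mod_cast this
    have h2 := den_norm p q
    have h8 : 0 < ‖((q.den : ℤ) : ℚ_[p])‖ := norm_pos_iff.2 hden0
    rw [← h2] at h1
    exact le_of_mul_le_mul_left h1 h8
  -- differences of squares
  have hloc0 : ∀ (p : ℕ) [Fact p.Prime], ∀ i,
      ‖(M : ℚ_[p]) * ((d i : ℚ_[p]) ^ 2 - (q : ℚ_[p]) ^ 2)‖ ≤ max ‖(q : ℚ_[p])‖ 1 := by
    intro p _ i
    have hx := hco p x n1 hn1
    have hy := hco p y n2 hn2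
    have hdi : (d i : ℚ_[p]) ^ 2 = (q : ℚ_[p]) ^ 2 - 2 * (x * α i + y * β i) + γ i := by
      exact_mod_cast congrArg (fun t : ℚ => (t : ℚ_[p])) (hd i)
    have e : (M : ℚ_[p]) * ((d i : ℚ_[p]) ^ 2 - (q : ℚ_[p]) ^ 2) =
        -((2 : ℚ_[p]) * ((N * x) * (L * α i))) +
        (-((2 : ℚ_[p]) * ((N * y) * (L * β i))) + N * (L * γ i)) := by
      rw [hdi, hM]
      push_cast
      ring
    have hmul : ∀ (z w : ℚ_[p]), ‖z‖ ≤ max ‖(q : ℚ_[p])‖ 1 → ‖w‖ ≤ 1 →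
        ‖-((2 : ℚ_[p]) * (z * w))‖ ≤ max ‖(q : ℚ_[p])‖ 1 := by
      intro z w hz hw
      rw [norm_neg, norm_mul, norm_mul]
      have h5 : ‖z‖ * ‖w‖ ≤ max ‖(q : ℚ_[p])‖ 1 * 1 :=
        mul_le_mul hz hw (norm_nonneg _) (by positivity)
      have h6 : ‖(2 : ℚ_[p])‖ * (‖z‖ * ‖w‖) ≤ ‖z‖ * ‖w‖ :=
        mul_le_of_le_one_left (by positivity) (norm_two_le p)
      linarith
    rw [e]
    refine (Padic.nonarchimedean _ _).trans (max_le ?_ ?_)
    · exact hmul _ _ hx (norm_mul_den p _ _ (hα i))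
    refine (Padic.nonarchimedean _ _).trans (max_le ?_ ?_)
    · exact hmul _ _ hy (norm_mul_den p _ _ (hβ i))
    · rw [norm_mul]
      refine le_trans ?_ (le_max_right _ _)
      exact mul_le_one₀ (norm_nat_le p N) (norm_nonneg _) (norm_mul_den p _ _ (hγ i))
  let f : Fin (2 * 2 ^ r + 1) → Finset ℕ := fun i =>
    a.primeFactors.filter fun p => 1 < padicNorm p (2 * M * (d i - q))
  obtain ⟨i, j, l, hij, hil, hjl, hfj, hfl⟩ := three_same a.primeFactors r har f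
    (fun i => Finset.filter_subset _ _)
  have ha0 : a ≠ 0 := by
    rintro rfl
    rw [zero_mul] at hab
    exact q.den_nz hab
  -- the conclusion for two indices with the same set
  have hfin : ∀ i j, f i = f j → ∃ n : ℤ, ((2 * M * N : ℕ) : ℚ) * (d i - d j) = n := by
    intro i j hfij
    apply int_of_norm
    intro p hp
    have hMle : ‖(M : ℚ_[p])‖ ≤ 1 := norm_nat_le p M
    have hNle : ‖(N : ℚ_[p])‖ ≤ 1 := norm_nat_le p N
    have h2le := norm_two_le p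
    have hcast : ((((2 * M * N : ℕ) : ℚ) * (d i - d j) : ℚ) : ℚ_[p]) =
        2 * (M : ℚ_[p]) * (N : ℚ_[p]) * ((d i : ℚ_[p]) - (d j : ℚ_[p])) := by
      push_cast
      ring
    rw [hcast]
    by_cases hpa : p ∣ a
    · have hpm : p ∈ a.primeFactors := Nat.mem_primeFactors.2 ⟨hp.out, hpa, ha0⟩
      have hnorm : ∀ i, (padicNorm p (2 * M * (d i - q)) : ℝ) =
          ‖2 * (M : ℚ_[p]) * ((d i : ℚ_[p]) - (q : ℚ_[p]))‖ := by
        intro i
        rw [← Padic.eq_padicNorm]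
        congr 1
      have hmem : ∀ i, p ∈ f i ↔ 1 < ‖2 * (M : ℚ_[p]) * ((d i : ℚ_[p]) - (q : ℚ_[p]))‖ := by
        intro i
        rw [← hnorm i]
        simp only [f, Finset.mem_filter, hpm, true_and]
        norm_cast
      have hqq : ‖(M : ℚ_[p]) * ((q : ℚ_[p]) ^ 2 - (q : ℚ_[p]) ^ 2)‖ ≤ max ‖(q : ℚ_[p])‖ 1 := by
        rw [sub_self, mul_zero, norm_zero]
        positivity
      have hgoal : ‖2 * (M : ℚ_[p]) * ((d i : ℚ_[p]) - (d j : ℚ_[p]))‖ ≤ 1 := by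
        by_cases hpi : p ∈ f i
        · have hpj : p ∈ f j := hfij ▸ hpi
          have h1 := (hmem i).1 hpi
          have h2 := (hmem j).1 hpj
          have h3 := (two_classes p M (d i) q q hMle (hloc0 p i) hqq
            (hloc0 p i)).resolve_left (not_le.2 h1)
          have h4 := (two_classes p M (d j) q q hMle (hloc0 p j) hqq
            (hloc0 p j)).resolve_left (not_le.2 h2)
          have e : 2 * (M : ℚ_[p]) * ((d i : ℚ_[p]) - (d j : ℚ_[p])) =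
              2 * (M : ℚ_[p]) * ((d i : ℚ_[p]) + (q : ℚ_[p])) +
              -(2 * (M : ℚ_[p]) * ((d j : ℚ_[p]) + (q : ℚ_[p]))) := by ring
          rw [e]
          exact (Padic.nonarchimedean _ _).trans (max_le h3 (by rw [norm_neg]; exact h4))
        · have hpj : p ∉ f j := hfij ▸ hpi
          have h1 := not_lt.1 (fun h => hpi ((hmem i).2 h))
          have h2 := not_lt.1 (fun h => hpj ((hmem j).2 h))
          have e : 2 * (M : ℚ_[p]) * ((d i : ℚ_[p]) - (d j : ℚ_[p])) =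
              2 * (M : ℚ_[p]) * ((d i : ℚ_[p]) - (q : ℚ_[p])) +
              -(2 * (M : ℚ_[p]) * ((d j : ℚ_[p]) - (q : ℚ_[p]))) := by ring
          rw [e]
          exact (Padic.nonarchimedean _ _).trans (max_le h1 (by rw [norm_neg]; exact h2))
      have e : 2 * (M : ℚ_[p]) * (N : ℚ_[p]) * ((d i : ℚ_[p]) - (d j : ℚ_[p])) =
          (N : ℚ_[p]) * (2 * (M : ℚ_[p]) * ((d i : ℚ_[p]) - (d j : ℚ_[p]))) := by ring
      rw [e, norm_mul]
      exact mul_le_one₀ hNle (norm_nonneg _) hgoal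
    · have hN0 : ‖(N : ℚ_[p]) * (q : ℚ_[p])‖ ≤ 1 := norm_fact_mul p q a b T hab hbT hpa
      have hgen : ∀ i, ‖(M : ℚ_[p]) * (N : ℚ_[p]) * (d i : ℚ_[p])‖ ≤ 1 := by
        intro i
        have h1 := hloc0 p i
        have hsq : ‖(M : ℚ_[p]) * (N : ℚ_[p]) * (d i : ℚ_[p])‖ ^ 2 ≤ 1 := by
          have e : ((M : ℚ_[p]) * (N : ℚ_[p]) * (d i : ℚ_[p])) ^ 2 =
              (M : ℚ_[p]) * ((N : ℚ_[p]) ^ 2 * ((M : ℚ_[p]) * ((d i : ℚ_[p]) ^ 2 -
              (q : ℚ_[p]) ^ 2)) + (M : ℚ_[p]) * ((N : ℚ_[p]) * (q : ℚ_[p])) ^ 2) := by ring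
          rw [← norm_pow, e, norm_mul]
          refine mul_le_one₀ hMle (norm_nonneg _)
            ((Padic.nonarchimedean _ _).trans (max_le ?_ ?_))
          · rw [norm_mul, norm_pow]
            rcases le_total ‖(q : ℚ_[p])‖ 1 with h | h
            · rw [max_eq_right h] at h1
              exact mul_le_one₀ (pow_le_one₀ (norm_nonneg _) hNle) (norm_nonneg _) h1
            · rw [max_eq_left h] at h1
              calc ‖(N : ℚ_[p])‖ ^ 2 * ‖(M : ℚ_[p]) * ((d i : ℚ_[p]) ^ 2 - (q : ℚ_[p]) ^ 2)‖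
                  ≤ ‖(N : ℚ_[p])‖ ^ 2 * ‖(q : ℚ_[p])‖ :=
                    mul_le_mul_of_nonneg_left h1 (by positivity)
                _ = ‖(N : ℚ_[p])‖ * ‖(N : ℚ_[p]) * (q : ℚ_[p])‖ := by
                    rw [norm_mul]; ring
                _ ≤ 1 := mul_le_one₀ hNle (norm_nonneg _) hN0
          · rw [norm_mul, norm_pow]
            exact mul_le_one₀ hMle (by positivity) (pow_le_one₀ (norm_nonneg _) hN0)
        by_contra hcon
        push Not at hcon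
        nlinarith
      have e : 2 * (M : ℚ_[p]) * (N : ℚ_[p]) * ((d i : ℚ_[p]) - (d j : ℚ_[p])) =
          2 * ((M : ℚ_[p]) * (N : ℚ_[p]) * (d i : ℚ_[p]) +
          -((M : ℚ_[p]) * (N : ℚ_[p]) * (d j : ℚ_[p]))) := by ring
      rw [e, norm_mul]
      exact mul_le_one₀ h2le (norm_nonneg _)
        ((Padic.nonarchimedean _ _).trans (max_le (hgen i) (by rw [norm_neg]; exact hgen j)))
  obtain ⟨n, hn⟩ := hfin i j hfj
  obtain ⟨n', hn'⟩ := hfin i l hfl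
  exact ⟨i, j, l, hij, hil, hjl, n, n', hn, hn'⟩

end H43.RD
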