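import Pool.Agent.H43.RD.Main

/-!
# RD.Fin : final steps (helper65, helper43)
-/

namespace H43.RD

/-- the squares of the doubled areas of all triangles of `X` are `k` times the square of a rational
number -/
def AreaClass (k : ℕ) (X : Set ℂ) : Prop :=
  ∀ P ∈ X, ∀ Q ∈ X, ∀ R ∈ X, ∃ w : ℚ, cross P Q R ^ 2 = k * w ^ 2

/-- `P - O = x (A - O) + y (B - O)` and the distance `q` from `P` to `O` are rational, the
denominator of `q` is `a * b` with `b ≤ T` and with `a` having at most `r` different prime factors, and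
no prime at which `-k` is a square divides the denominator of `T * den q * x` or of
`T * den q * y` -/
def Mild (k r T : ℕ) (O A B P : ℂ) : Prop :=
  ∃ q x y : ℚ, (q : ℝ) = dist P O ∧ P - O = x * (A - O) + y * (B - O) ∧
    (∃ a b : ℕ, q.den = a * b ∧ b ≤ T ∧ a.primeFactors.card ≤ r) ∧
    ∀ (p : ℕ) [Fact p.Prime], IsSquare (-(k : ℚ_[p])) →
      ¬ p ∣ (T * q.den * x).den ∧ ¬ p ∣ (T * q.den * y).den

theorem vec_iff (O A B P : ℂ) (x y : ℚ) : P - O = x * (A - O) + y * (B - O) ↔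
    (P.re - O.re = x * (A.re - O.re) + y * (B.re - O.re) ∧
      P.im - O.im = x * (A.im - O.im) + y * (B.im - O.im)) := by
  rw [Complex.ext_iff]
  simp

theorem class_eq {X : Set ℂ} (hX : RatDist X) {k : ℕ} (hk : AreaClass k X) {O A B : ℂ} (hO : O ∈ X)
    (hA : A ∈ X) (hB : B ∈ X) (hne : cross O A B ≠ 0) :
    ∃ g11 g12 g22 w : ℚ, (g11 : ℝ) = (A.re - O.re) * (A.re - O.re) + (A.im - O.im) * (A.im - O.im) ∧
      (g12 : ℝ) = (A.re - O.re) * (B.re - O.re) + (A.im - O.im) * (B.im - O.im) ∧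
      (g22 : ℝ) = (B.re - O.re) * (B.re - O.re) + (B.im - O.im) * (B.im - O.im) ∧
      g11 * g22 - g12 ^ 2 = k * w ^ 2 ∧ g11 * g22 - g12 ^ 2 ≠ 0 := by
  obtain ⟨g11, h11⟩ := dot_rat hX hO hA hA
  obtain ⟨g12, h12⟩ := dot_rat hX hO hA hB
  obtain ⟨g22, h22⟩ := dot_rat hX hO hB hB
  obtain ⟨w, hw⟩ := hk O hO A hA B hB
  have hDr : ((g11 * g22 - g12 ^ 2 : ℚ) : ℝ) = cross O A B ^ 2 := by
    push_cast
    rw [h11, h12, h22, cross]; ring
  refine ⟨g11, g12, g22, w, h11, h12, h22, ?_, ?_⟩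
  · have : ((g11 * g22 - g12 ^ 2 : ℚ) : ℝ) = ((k * w ^ 2 : ℚ) : ℝ) := by
      rw [hDr, hw]; push_cast; rfl
    exact_mod_cast this
  · intro h
    rw [h, Rat.cast_zero] at hDr
    exact hne (pow_eq_zero_iff (two_ne_zero) |>.1 hDr.symm)

/-- the main theorem for one triangle -/
theorem finite_mild {X : Set ℂ} (hX : RatDist X) (k r T : ℕ) (hk : AreaClass k X) (G : Finset ℂ)
    (hG : ∀ P ∈ G, P ∈ X) (hcard : 2 ^ (r + 1) < G.card) (hgp : GenPos G)
    {O A B : ℂ} (hO : O ∈ X) (hA : A ∈ X) (hB : B ∈ X) (hne : cross O A B ≠ 0) :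
    {P ∈ X | Mild k r T O A B P}.Finite := by
  obtain ⟨g11, g12, g22, w, h11, h12, h22, hDq, hD0⟩ := class_eq hX hk hO hA hB hne
  obtain ⟨T', hT', hbal⟩ := mild_bal k T g11 g12 g22 _ w rfl hD0 hDq
  refine (finite_bal hX r T' G hG hcard hgp hO hA hB).subset ?_
  rintro P ⟨hP, q, x, y, hq, hv, ⟨a, b, hab, hb, hr⟩, hs⟩
  obtain ⟨hx, hy⟩ := (vec_iff O A B P x y).1 hv
  have c0 : q ^ 2 = g11 * x ^ 2 + 2 * g12 * x * y + g22 * y ^ 2 := by
    have : ((q ^ 2 : ℚ) : ℝ) = ((g11 * x ^ 2 + 2 * g12 * x * y + g22 * y ^ 2 : ℚ) : ℝ) := by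
      push_cast
      rw [hq, dist_sq, hx, hy, h11, h12, h22]
      ring
    exact_mod_cast this
  have hxy := hbal x y q c0 hs
  exact ⟨hP, q, x, y, hq, ⟨hx, hy⟩, hxy, a, b, hab, hb.trans hT', hr⟩

/-- S-integral distances -/
theorem finite_sint {X : Set ℂ} (hX : RatDist X) (k : ℕ) (hk : AreaClass k X)
    {O A B : ℂ} (hO : O ∈ X) (hA : A ∈ X) (hB : B ∈ X) (hne : cross O A B ≠ 0)
    (r : ℕ) (hfin : ∀ T, {P ∈ X | Mild k r T O A B P}.Finite) (D N : ℕ) (hD : 0 < D) (hN : 0 < N)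
    (hNr : N.primeFactors.card ≤ r)
    (hns : ∀ (p : ℕ) [Fact p.Prime], p ∣ N → ¬ IsSquare (-(k : ℚ_[p]))) :
    {P ∈ X | ∀ Q ∈ ({O, A, B} : Set ℂ), ∃ (z : ℤ) (e : ℕ), dist P Q = z / (D * N ^ e)}.Finite := by
  obtain ⟨g11, g12, g22, w, h11, h12, h22, hDq, hD0⟩ := class_eq hX hk hO hA hB hne
  obtain ⟨T, hDT, hT⟩ := split_bound g11 g12 g22 _ rfl hD0 D hD
  refine (hfin T).subset ?_
  rintro P ⟨hP, hS⟩
  obtain ⟨x, y, hx, hy⟩ := coords hX hO hA hB hne hP
  obtain ⟨q, hq⟩ := hX P hP O hO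
  obtain ⟨d1, hd1⟩ := hX P hP A hA
  obtain ⟨d2, hd2⟩ := hX P hP B hB
  -- the distances
  have hden : ∀ (Q : ℂ) (d : ℚ), Q ∈ ({O, A, B} : Set ℂ) → (d : ℝ) = dist P Q →
      ∃ e : ℕ, d.den ∣ D * N ^ e := by
    intro Q d hQ hd
    obtain ⟨z, e, hz⟩ := hS Q hQ
    refine ⟨e, ?_⟩
    have h1 : d = (z : ℚ) / ((D * N ^ e : ℕ) : ℤ) := by
      have : (d : ℝ) = (((z : ℚ) / ((D * N ^ e : ℕ) : ℤ) : ℚ) : ℝ) := by
        rw [hd, hz]
        push_cast
        rfl
      exact_mod_cast this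
    have h2 := Rat.den_dvd z ((D * N ^ e : ℕ) : ℤ)
    rw [Rat.divInt_eq_div, ← h1] at h2
    exact_mod_cast h2
  have hloc : ∀ (Q : ℂ) (d : ℚ), Q ∈ ({O, A, B} : Set ℂ) → (d : ℝ) = dist P Q →
      ∀ (p : ℕ) [Fact p.Prime], IsSquare (-(k : ℚ_[p])) → ‖(D : ℚ_[p]) * (d : ℚ_[p])‖ ≤ 1 := by
    intro Q d hQ hd p hp hsq
    obtain ⟨e, he⟩ := hden Q d hQ hd
    have h1 := norm_mul_den p d _ he
    have hpN : ¬ p ∣ N := fun h => hns p h hsq
    have hnN : ‖(N : ℚ_[p])‖ = 1 := by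
      refine le_antisymm (norm_nat_le p N) ?_
      by_contra hlt
      push Not at hlt
      have h3 : ‖((N : ℤ) : ℚ_[p])‖ < 1 := by simpa using hlt
      exact hpN (by exact_mod_cast Padic.norm_intCast_lt_one_iff.1 h3)
    have e1 : ((D * N ^ e : ℕ) : ℚ_[p]) * (d : ℚ_[p]) =
        (N : ℚ_[p]) ^ e * ((D : ℚ_[p]) * (d : ℚ_[p])) := by
      push_cast
      ring
    rw [e1, norm_mul, norm_pow, hnN, one_pow, one_mul] at h1
    exact h1
  have mO : O ∈ ({O, A, B} : Set ℂ) := by simp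
  have mA : A ∈ ({O, A, B} : Set ℂ) := by simp
  have mB : B ∈ ({O, A, B} : Set ℂ) := by simp
  have c1 : d1 ^ 2 = q ^ 2 - 2 * (x * g11 + y * g12) + g11 := by
    have : ((d1 ^ 2 : ℚ) : ℝ) = ((q ^ 2 - 2 * (x * g11 + y * g12) + g11 : ℚ) : ℝ) := by
      push_cast
      rw [hd1, hq, dist_sq, dist_sq, h11, h12]
      have e1 : P.re - A.re = (P.re - O.re) - (A.re - O.re) := by ring
      have e2 : P.im - A.im = (P.im - O.im) - (A.im - O.im) := by ring
      rw [e1, e2, hx, hy]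
      ring
    exact_mod_cast this
  have c2 : d2 ^ 2 = q ^ 2 - 2 * (x * g12 + y * g22) + g22 := by
    have : ((d2 ^ 2 : ℚ) : ℝ) = ((q ^ 2 - 2 * (x * g12 + y * g22) + g22 : ℚ) : ℝ) := by
      push_cast
      rw [hd2, hq, dist_sq, dist_sq, h22, h12]
      have e1 : P.re - B.re = (P.re - O.re) - (B.re - O.re) := by ring
      have e2 : P.im - B.im = (P.im - O.im) - (B.im - O.im) := by ring
      rw [e1, e2, hx, hy]
      ring
    exact_mod_cast this
  refine ⟨hP, q, x, y, hq, (vec_iff O A B P x y).2 ⟨hx, hy⟩, ?_, ?_⟩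
  · obtain ⟨e, he⟩ := hden O q mO hq
    obtain ⟨b, a, hb, ha, hba⟩ := exists_dvd_and_dvd_of_dvd_mul he
    refine ⟨a, b, by rw [hba, mul_comm], (Nat.le_of_dvd hD hb).trans hDT, ?_⟩
    refine (Finset.card_le_card ?_).trans hNr
    intro p hp
    obtain ⟨hpp, hpa, -⟩ := Nat.mem_primeFactors.1 hp
    exact Nat.mem_primeFactors.2 ⟨hpp, hpp.dvd_of_dvd_pow (hpa.trans ha), hN.ne'⟩
  · intro p _ hsq
    obtain ⟨b1, b2⟩ := hT p x y q d1 d2 c1 c2 (hloc O q mO hq p hsq) (hloc A d1 mA hd1 p hsq)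
      (hloc B d2 mB hd2 p hsq)
    have gen : ∀ z : ℚ, ‖((T * z : ℚ) : ℚ_[p])‖ ≤ 1 → ¬ p ∣ (T * q.den * z).den := by
      intro z hz
      apply not_dvd_den
      have e : ((T * q.den * z : ℚ) : ℚ_[p]) = ((q.den : ℕ) : ℚ_[p]) * ((T * z : ℚ) : ℚ_[p]) := by
        push_cast
        ring
      rw [e, norm_mul]
      exact mul_le_one₀ (norm_nat_le p _) (norm_nonneg _) hz
    exact ⟨gen x b1, gen y b2⟩

/-- Theorem 4 -/
theorem exists_class {X : Set ℂ} (hX : RatDist X) : ∃ k : ℕ, Squarefree k ∧ AreaClass k X := by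
  by_cases hall : ∀ O ∈ X, ∀ A ∈ X, ∀ B ∈ X, cross O A B = 0
  · refine ⟨1, squarefree_one, fun P hP Q hQ R hR => ⟨0, ?_⟩⟩
    rw [hall P hP Q hQ R hR]
    simp
  push Not at hall
  obtain ⟨O, hO, A, hA, B, hB, hne⟩ := hall
  obtain ⟨g11, h11⟩ := dot_rat hX hO hA hA
  obtain ⟨g12, h12⟩ := dot_rat hX hO hA hB
  obtain ⟨g22, h22⟩ := dot_rat hX hO hB hB
  have hDr : ((g11 * g22 - g12 ^ 2 : ℚ) : ℝ) = cross O A B ^ 2 := by
    push_cast
    rw [h11, h12, h22, cross]; ring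
  set D : ℚ := g11 * g22 - g12 ^ 2 with hD
  have hDpos : 0 < D := by
    have h1 : (0 : ℝ) < (D : ℝ) := by rw [hDr]; positivity
    exact_mod_cast h1
  obtain ⟨k, b, hkb, hsq⟩ := Nat.sq_mul_squarefree (D.num.natAbs * D.den)
  refine ⟨k, hsq, ?_⟩
  have hDk : D = k * (b / D.den) ^ 2 := by
    have hden : (D.den : ℚ) ≠ 0 := by exact_mod_cast D.den_nz
    have hnum : ((D.num.natAbs : ℕ) : ℚ) = D * D.den := by
      rw [Rat.mul_den_eq_num]
      have : (D.num.natAbs : ℤ) = D.num := Int.natAbs_of_nonneg (Rat.num_nonneg.2 hDpos.le)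
      rw [← Int.cast_natCast, this]
    have h1 : ((b : ℚ)) ^ 2 * k = D * D.den * D.den := by
      rw [← hnum]
      exact_mod_cast hkb
    field_simp
    linear_combination -h1
  intro P hP Q hQ R hR
  obtain ⟨x1, y1, hx1, hy1⟩ := coords hX hO hA hB hne hP
  obtain ⟨x2, y2, hx2, hy2⟩ := coords hX hO hA hB hne hQ
  obtain ⟨x3, y3, hx3, hy3⟩ := coords hX hO hA hB hne hR
  refine ⟨((x2 - x1) * (y3 - y1) - (y2 - y1) * (x3 - x1)) * (b / D.den), ?_⟩
  have e : cross P Q R = ((x2 - x1) * (y3 - y1) - (y2 - y1) * (x3 - x1)) * cross O A B := by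
    have e1 : Q.re - P.re = (Q.re - O.re) - (P.re - O.re) := by ring
    have e2 : Q.im - P.im = (Q.im - O.im) - (P.im - O.im) := by ring
    have e3 : R.re - P.re = (R.re - O.re) - (P.re - O.re) := by ring
    have e4 : R.im - P.im = (R.im - O.im) - (P.im - O.im) := by ring
    rw [cross, e1, e2, e3, e4, hx1, hy1, hx2, hy2, hx3, hy3, cross]
    ring
  have hDk' : cross O A B ^ 2 = k * ((b : ℝ) / D.den) ^ 2 := by
    rw [← hDr]
    have := congrArg (fun t : ℚ => (t : ℝ)) hDk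
    push_cast at this
    exact this
  rw [e, mul_pow, hDk']
  push_cast
  ring

/-- `X` is not contained in a finite union of lines -/
def NotInLines (X : Set ℂ) : Prop :=
  ∀ L : Finset (ℂ × ℂ), (∀ l ∈ L, l.1 ≠ l.2) → ∃ P ∈ X, ∀ l ∈ L, cross l.1 l.2 P ≠ 0

theorem cross_rot (P Q R : ℂ) : cross P Q R = cross Q R P := by
  rw [cross, cross]; ring

theorem cross_swap (P Q R : ℂ) : cross P Q R = - cross Q P R := by
  rw [cross, cross]; ring

/-- Theorem 5 -/
theorem exists_genPos {X : Set ℂ} (h : NotInLines X) (n : ℕ) :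
    ∃ G : Finset ℂ, (∀ P ∈ G, P ∈ X) ∧ G.card = n ∧ GenPos G := by
  classical
  induction n with
  | zero => exact ⟨∅, by simp, rfl, by intro P hP; simp at hP⟩
  | succ n ih =>
    obtain ⟨G, hG, hcard, hgp⟩ := ih
    obtain ⟨P, hP, hPL⟩ := h (((G ×ˢ G).filter fun l => l.1 ≠ l.2) ∪ G.image fun Q => (Q, Q + 1)) (by
      intro l hl
      rw [Finset.mem_union] at hl
      rcases hl with hl | hl
      · exact (Finset.mem_filter.1 hl).2
      · obtain ⟨Q, -, rfl⟩ := Finset.mem_image.1 hl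
        intro h
        simp at h)
    have hPG : P ∉ G := by
      intro hPG
      have := hPL (P, P + 1) (Finset.mem_union_right _ (Finset.mem_image_of_mem _ hPG))
      apply this
      rw [cross]
      simp
    have key : ∀ Q ∈ G, ∀ R ∈ G, Q ≠ R → cross Q R P ≠ 0 := by
      intro Q hQ R hR hQR
      exact hPL (Q, R) (Finset.mem_union_left _ (Finset.mem_filter.2
        ⟨Finset.mem_product.2 ⟨hQ, hR⟩, hQR⟩))
    refine ⟨insert P G, ?_, ?_, ?_⟩
    · intro Q hQ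
      rcases Finset.mem_insert.1 hQ with rfl | hQ
      · exact hP
      · exact hG Q hQ
    · rw [Finset.card_insert_of_notMem hPG, hcard]
    · intro A hA B hB C hC hAB hAC hBC
      rcases Finset.mem_insert.1 hA with eA | eA
      · rcases Finset.mem_insert.1 hB with eB | eB
        · exact absurd (eA.trans eB.symm) hAB
        rcases Finset.mem_insert.1 hC with eC | eC
        · exact absurd (eA.trans eC.symm) hAC
        rw [cross_rot, eA]
        exact key B eB C eC hBC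
      rcases Finset.mem_insert.1 hB with eB | eB
      · rcases Finset.mem_insert.1 hC with eC | eC
        · exact absurd (eB.trans eC.symm) hBC
        rw [cross_rot, cross_rot, eB]
        exact key C eC A eA hAC.symm
      rcases Finset.mem_insert.1 hC with eC | eC
      · rw [eC]
        exact key A eA B eB hAB
      · exact hgp A eA B eB C eC hAB hAC hBC

/-- Theorem 6 -/
theorem notInLines_of_dense {X U : Set ℂ} (hU : IsOpen U) (hne : U.Nonempty)
    (hXU : U ⊆ closure X) : NotInLines X := by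
  intro L hL
  obtain ⟨c, hc⟩ := hne
  let γ : ℝ → ℂ := fun s => ⟨c.re + s, c.im + s ^ 2⟩
  have hγ : Continuous γ := by
    have e : γ = fun s : ℝ => (c + s + (s : ℂ) ^ 2 * Complex.I) := by
      funext s
      apply Complex.ext
      · simp [γ, ← Complex.ofReal_pow]
      · simp [γ, ← Complex.ofReal_pow]
    rw [e]
    fun_prop
  have h0 : γ 0 = c := by
    apply Complex.ext <;> simp [γ]
  have hnhd : γ ⁻¹' U ∈ nhds (0 : ℝ) := (hU.preimage hγ).mem_nhds (by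
    show γ 0 ∈ U
    rw [h0]; exact hc)
  have hinf : (γ ⁻¹' U).Infinite := infinite_of_mem_nhds 0 hnhd
  have hfin : (⋃ l ∈ L, {s : ℝ | cross l.1 l.2 (γ s) = 0}).Finite := by
    refine L.finite_toSet.biUnion fun l hl => ?_
    have := quad_fin (l.2.re - l.1.re) (-(l.2.im - l.1.im))
      ((l.2.re - l.1.re) * (c.im - l.1.im) - (l.2.im - l.1.im) * (c.re - l.1.re)) (by
        rintro ⟨h1, h2, -⟩
        apply hL l hl
        apply Complex.ext
        · linarith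
        · linarith)
    refine this.subset ?_
    intro s hs
    have hs' : cross l.1 l.2 (γ s) = 0 := hs
    show (l.2.re - l.1.re) * s ^ 2 + -(l.2.im - l.1.im) * s +
      ((l.2.re - l.1.re) * (c.im - l.1.im) - (l.2.im - l.1.im) * (c.re - l.1.re)) = 0
    rw [cross] at hs'
    have e1 : (γ s).re = c.re + s := rfl
    have e2 : (γ s).im = c.im + s ^ 2 := rfl
    rw [e1, e2] at hs'
    linear_combination hs'
  obtain ⟨s, hsU, hs⟩ := (hinf.sdiff hfin).nonempty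
  have hopen : IsOpen (U ∩ {P : ℂ | ∀ l ∈ L, cross l.1 l.2 P ≠ 0}) := by
    refine hU.inter ?_
    have : {P : ℂ | ∀ l ∈ L, cross l.1 l.2 P ≠ 0} = ⋂ l ∈ L, {P : ℂ | cross l.1 l.2 P ≠ 0} := by
      ext P
      simp
    rw [this]
    refine isOpen_biInter_finset fun l _ => ?_
    refine isOpen_ne_fun ?_ continuous_const
    unfold cross
    fun_prop
  have hmem : γ s ∈ closure X := hXU hsU
  obtain ⟨P, ⟨-, hP2⟩, hPX⟩ := mem_closure_iff.1 hmem _ hopen ⟨hsU, by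
    intro l hl h
    exact hs (Set.mem_biUnion hl h)⟩
  exact ⟨P, hPX, hP2⟩

end H43.RD
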