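import Mathlib

/-!
# RD.Geo : the geometric part of the S-integral Anning-Erdos theorem (helper65, helper43)
-/

namespace H43.RD

open Polynomial

/-- twice the signed area of the triangle `P Q R` -/
def cross (P Q R : ℂ) : ℝ :=
  (Q.re - P.re) * (R.im - P.im) - (Q.im - P.im) * (R.re - P.re)

theorem dist_sq (P Q : ℂ) : dist P Q ^ 2 = (P.re - Q.re) ^ 2 + (P.im - Q.im) ^ 2 := by
  rw [Complex.dist_eq, Complex.sq_norm, Complex.normSq_apply, Complex.sub_re, Complex.sub_im]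
  ring

theorem quad_fin (a b c : ℝ) (h : ¬ (a = 0 ∧ b = 0 ∧ c = 0)) :
    {x : ℝ | a * x ^ 2 + b * x + c = 0}.Finite := by
  have hp : (C a * X ^ 2 + C b * X + C c : ℝ[X]) ≠ 0 := by
    intro h0
    apply h
    have h2 := congrArg (fun q : ℝ[X] => q.coeff 2) h0
    have h1 := congrArg (fun q : ℝ[X] => q.coeff 1) h0
    have h3 := congrArg (fun q : ℝ[X] => q.coeff 0) h0
    simp [coeff_X, coeff_C] at h2 h1 h3
    exact ⟨h2, h1, h3⟩
  refine (Polynomial.finite_setOfPred_isRoot hp).subset ?_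
  intro x hx
  have hx' : a * x ^ 2 + b * x + c = 0 := hx
  show IsRoot _ x
  rw [IsRoot.def]
  simpa using hx'

theorem nontriv (bx b' cx cy δ α β p1 p2 q1 q2 m n : ℝ) (hδ : δ = bx * cy - b' * cx)
    (hδ0 : δ ≠ 0) (hm : 2 * m = bx ^ 2 + b' ^ 2 - α ^ 2) (hn : 2 * n = cx ^ 2 + cy ^ 2 - β ^ 2)
    (e1 : p1 * δ = m * cy - n * b') (e2 : p2 * δ = n * bx - m * cx)
    (e3 : q1 * δ = α * cy - β * b') (e4 : q2 * δ = β * bx - α * cx) :
    ¬ ((q1 ^ 2 + q2 ^ 2 - 1 = 0) ∧ (2 * (p1 * q1 + p2 * q2) = 0) ∧ (p1 ^ 2 + p2 ^ 2 = 0)) := by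
  rintro ⟨h1, -, h3⟩
  have hp10 : p1 = 0 := by
    have : p1 ^ 2 = 0 := by linarith [sq_nonneg p1, sq_nonneg p2]
    exact pow_eq_zero_iff (two_ne_zero) |>.1 this
  have hp20 : p2 = 0 := by
    have : p2 ^ 2 = 0 := by linarith [sq_nonneg p1, sq_nonneg p2]
    exact pow_eq_zero_iff (two_ne_zero) |>.1 this
  have f1 : m * cy - n * b' = 0 := by rw [← e1, hp10, zero_mul]
  have f2 : n * bx - m * cx = 0 := by rw [← e2, hp20, zero_mul]
  have hm0 : m * δ = 0 := by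
    rw [hδ]
    linear_combination bx * f1 + b' * f2
  have hn0 : n * δ = 0 := by
    rw [hδ]
    linear_combination cx * f1 + cy * f2
  have hm1 : m = 0 := (mul_eq_zero.1 hm0).resolve_right hδ0
  have hn1 : n = 0 := (mul_eq_zero.1 hn0).resolve_right hδ0
  have g1 : α ^ 2 = bx ^ 2 + b' ^ 2 := by
    rw [hm1] at hm
    linarith
  have g2 : β ^ 2 = cx ^ 2 + cy ^ 2 := by
    rw [hn1] at hn
    linarith
  have g3 : (α * cy - β * b') ^ 2 + (β * bx - α * cx) ^ 2 = δ ^ 2 := by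
    rw [← e3, ← e4]
    linear_combination δ ^ 2 * h1
  have g7 : δ ^ 2 = (bx ^ 2 + b' ^ 2) * (cx ^ 2 + cy ^ 2) - (bx * cx + b' * cy) ^ 2 := by
    rw [hδ]; ring
  have g4 : (α * β - (bx * cx + b' * cy)) ^ 2 = 0 := by
    have g8 : (α * cy - β * b') ^ 2 + (β * bx - α * cx) ^ 2 =
      α ^ 2 * (cx ^ 2 + cy ^ 2) + β ^ 2 * (bx ^ 2 + b' ^ 2) - 2 * (α * β) * (bx * cx + b' * cy) := by
      ring
    rw [g8, g7, ← g1, ← g2] at g3
    linear_combination g3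
  have g5 : bx * cx + b' * cy = α * β := by
    have := pow_eq_zero_iff (two_ne_zero) |>.1 g4
    linarith
  have g6 : δ ^ 2 = 0 := by
    rw [g7, g5, ← g1, ← g2]
    ring
  exact hδ0 (pow_eq_zero_iff (two_ne_zero) |>.1 g6)

/-- the point is an affine function of one distance -/
theorem affine_form (bx b' cx cy δ α β p1 p2 q1 q2 m n wx wy ρ : ℝ) (hδ : δ = bx * cy - b' * cx)
    (hδ0 : δ ≠ 0) (hm : 2 * m = bx ^ 2 + b' ^ 2 - α ^ 2) (hn : 2 * n = cx ^ 2 + cy ^ 2 - β ^ 2)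
    (e1 : p1 * δ = m * cy - n * b') (e2 : p2 * δ = n * bx - m * cx)
    (e3 : q1 * δ = α * cy - β * b') (e4 : q2 * δ = β * bx - α * cx)
    (k1 : ρ ^ 2 = wx ^ 2 + wy ^ 2) (k2 : (ρ - α) ^ 2 = (wx - bx) ^ 2 + (wy - b') ^ 2)
    (k3 : (ρ - β) ^ 2 = (wx - cx) ^ 2 + (wy - cy) ^ 2) :
    wx = p1 + q1 * ρ ∧ wy = p2 + q2 * ρ := by
  have l1 : wx * bx + wy * b' = α * ρ + m := by
    linear_combination (1 / 2) * k2 - (1 / 2) * k1 - (1 / 2) * hm
  have l2 : wx * cx + wy * cy = β * ρ + n := by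
    linear_combination (1 / 2) * k3 - (1 / 2) * k1 - (1 / 2) * hn
  constructor
  · apply mul_right_cancel₀ hδ0
    linear_combination wx * hδ + cy * l1 - b' * l2 - e1 - ρ * e3
  · apply mul_right_cancel₀ hδ0
    linear_combination wy * hδ + bx * l2 - cx * l1 - e2 - ρ * e4

/-- two differences of distances to three points which are not collinear determine at most finitely
many points -/
theorem fin3 (A B D : ℂ) (h : cross A B D ≠ 0) (α β : ℝ) :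
    {P : ℂ | dist P A - dist P B = α ∧ dist P A - dist P D = β}.Finite := by
  obtain ⟨δ, hδ⟩ : ∃ δ : ℝ, δ = (B.re - A.re) * (D.im - A.im) - (B.im - A.im) * (D.re - A.re) :=
    ⟨_, rfl⟩
  have hδ0 : δ ≠ 0 := by
    rw [hδ]
    exact h
  obtain ⟨m, hm⟩ : ∃ m : ℝ, 2 * m = (B.re - A.re) ^ 2 + (B.im - A.im) ^ 2 - α ^ 2 :=
    ⟨((B.re - A.re) ^ 2 + (B.im - A.im) ^ 2 - α ^ 2) / 2, by ring⟩
  obtain ⟨n, hn⟩ : ∃ n : ℝ, 2 * n = (D.re - A.re) ^ 2 + (D.im - A.im) ^ 2 - β ^ 2 :=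
    ⟨((D.re - A.re) ^ 2 + (D.im - A.im) ^ 2 - β ^ 2) / 2, by ring⟩
  obtain ⟨p1, e1⟩ : ∃ p : ℝ, p * δ = m * (D.im - A.im) - n * (B.im - A.im) :=
    ⟨_, div_mul_cancel₀ _ hδ0⟩
  obtain ⟨p2, e2⟩ : ∃ p : ℝ, p * δ = n * (B.re - A.re) - m * (D.re - A.re) :=
    ⟨_, div_mul_cancel₀ _ hδ0⟩
  obtain ⟨q1, e3⟩ : ∃ p : ℝ, p * δ = α * (D.im - A.im) - β * (B.im - A.im) :=
    ⟨_, div_mul_cancel₀ _ hδ0⟩
  obtain ⟨q2, e4⟩ : ∃ p : ℝ, p * δ = β * (B.re - A.re) - α * (D.re - A.re) :=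
    ⟨_, div_mul_cancel₀ _ hδ0⟩
  have hq := nontriv _ _ _ _ δ α β p1 p2 q1 q2 m n hδ hδ0 hm hn e1 e2 e3 e4
  refine ((quad_fin _ _ _ hq).image (fun ρ : ℝ =>
    (⟨A.re + (p1 + q1 * ρ), A.im + (p2 + q2 * ρ)⟩ : ℂ))).subset ?_
  rintro P ⟨hα, hβ⟩
  have k1 := dist_sq P A
  have k2 := dist_sq P B
  have k3 := dist_sq P D
  have hb' : dist P B = dist P A - α := by linarith
  have hc' : dist P D = dist P A - β := by linarith
  rw [hb'] at k2
  rw [hc'] at k3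
  obtain ⟨l3, l4⟩ := affine_form (B.re - A.re) (B.im - A.im) (D.re - A.re) (D.im - A.im) δ α β
    p1 p2 q1 q2 m n (P.re - A.re) (P.im - A.im) (dist P A) hδ hδ0 hm hn e1 e2 e3 e4 k1
    (by rw [k2]; ring) (by rw [k3]; ring)
  refine ⟨dist P A, ?_, ?_⟩
  · show (q1 ^ 2 + q2 ^ 2 - 1) * dist P A ^ 2 + 2 * (p1 * q1 + p2 * q2) * dist P A +
      (p1 ^ 2 + p2 ^ 2) = 0
    rw [l3, l4] at k1
    linear_combination -k1
  · apply Complex.ext
    · show A.re + (p1 + q1 * dist P A) = P.re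
      rw [← l3]; ring
    · show A.im + (p2 + q2 * dist P A) = P.im
      rw [← l4]; ring

end H43.RD
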