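import Pool.Agent.H43.RD.Arith
import Pool.Agent.H43.RD.Geo

/-!
# RD.Main : the S-integral Anning-Erdos theorem (helper65, helper43)
-/

namespace H43.RD

/-- all distances between points of `X` are rational -/
def RatDist (X : Set ℂ) : Prop :=
  ∀ P ∈ X, ∀ Q ∈ X, dist P Q ∈ Set.range ((↑) : ℚ → ℝ)

/-- scalar products are rational -/
theorem dot_rat {X : Set ℂ} (hX : RatDist X) {O P Q : ℂ} (hO : O ∈ X) (hP : P ∈ X) (hQ : Q ∈ X) :
    ∃ q : ℚ, (q : ℝ) = (P.re - O.re) * (Q.re - O.re) + (P.im - O.im) * (Q.im - O.im) := by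
  obtain ⟨a, ha⟩ := hX P hP O hO
  obtain ⟨b, hb⟩ := hX Q hQ O hO
  obtain ⟨c, hc⟩ := hX P hP Q hQ
  refine ⟨(a ^ 2 + b ^ 2 - c ^ 2) / 2, ?_⟩
  have h1 := dist_sq P O
  have h2 := dist_sq Q O
  have h3 := dist_sq P Q
  rw [← ha] at h1
  rw [← hb] at h2
  rw [← hc] at h3
  push_cast
  linear_combination (1 / 2) * h1 + (1 / 2) * h2 - (1 / 2) * h3

/-- rational coordinates -/
theorem coords {X : Set ℂ} (hX : RatDist X) {O A B : ℂ} (hO : O ∈ X) (hA : A ∈ X) (hB : B ∈ X)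
    (hne : cross O A B ≠ 0) {P : ℂ} (hP : P ∈ X) :
    ∃ x y : ℚ, P.re - O.re = x * (A.re - O.re) + y * (B.re - O.re) ∧
      P.im - O.im = x * (A.im - O.im) + y * (B.im - O.im) := by
  obtain ⟨g11, h11⟩ := dot_rat hX hO hA hA
  obtain ⟨g12, h12⟩ := dot_rat hX hO hA hB
  obtain ⟨g22, h22⟩ := dot_rat hX hO hB hB
  obtain ⟨u, hu⟩ := dot_rat hX hO hP hA
  obtain ⟨v, hv⟩ := dot_rat hX hO hP hB
  have hD : (g11 : ℝ) * g22 - g12 ^ 2 = cross O A B ^ 2 := by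
    rw [h11, h12, h22, cross]; ring
  have hD0 : (g11 : ℝ) * g22 - g12 ^ 2 ≠ 0 := by
    rw [hD]; exact pow_ne_zero 2 hne
  refine ⟨(u * g22 - v * g12) / (g11 * g22 - g12 ^ 2), (v * g11 - u * g12) / (g11 * g22 - g12 ^ 2),
    ?_, ?_⟩
  · push_cast
    rw [div_mul_eq_mul_div, div_mul_eq_mul_div, ← add_div, eq_div_iff hD0, hD, h11, h12, h22, hu,
      hv, cross]
    ring
  · push_cast
    rw [div_mul_eq_mul_div, div_mul_eq_mul_div, ← add_div, eq_div_iff hD0, hD, h11, h12, h22, hu,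
      hv, cross]
    ring

/-- the denominator of `q` is `a * b` with `b ≤ T` and with `a` having at most `r` different prime
factors -/
def Few (r T : ℕ) (q : ℚ) : Prop :=
  ∃ a b : ℕ, q.den = a * b ∧ b ≤ T ∧ a.primeFactors.card ≤ r

/-- no three different points of `G` are collinear -/
def GenPos (G : Finset ℂ) : Prop :=
  ∀ P ∈ G, ∀ Q ∈ G, ∀ R ∈ G, P ≠ Q → P ≠ R → Q ≠ R → cross P Q R ≠ 0

/-- the version for sequences -/
theorem finite_seq {X : Set ℂ} (hX : RatDist X) (r T : ℕ) (A : Fin (2 * 2 ^ r + 1) → ℂ)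
    (hA : ∀ i, A i ∈ X)
    (hcol : ∀ i j l, i ≠ j → i ≠ l → j ≠ l → cross (A i) (A j) (A l) ≠ 0)
    {O A1 A2 : ℂ} (hO : O ∈ X) (h1 : A1 ∈ X) (h2 : A2 ∈ X) :
    {P ∈ X | ∃ q x y : ℚ, (q : ℝ) = dist P O ∧
      (P.re - O.re = x * (A1.re - O.re) + y * (A2.re - O.re) ∧
       P.im - O.im = x * (A1.im - O.im) + y * (A2.im - O.im)) ∧
      (∃ n n' : ℤ, T * q.den * x = n ∧ T * q.den * y = n') ∧ Few r T q}.Finite := by
  classical
  choose α hα using fun i => dot_rat hX hO h1 (hA i)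
  choose β hβ using fun i => dot_rat hX hO h2 (hA i)
  choose γ hγ using fun i => dot_rat hX hO (hA i) (hA i)
  obtain ⟨M, hM, hmain⟩ := arith r T α β γ
  have hMr : (0 : ℝ) < M := by exact_mod_cast hM
  -- a bound for the integers
  obtain ⟨B, hB⟩ : ∃ B : ℕ, ∀ i j, (M : ℝ) * dist (A i) (A j) ≤ B := by
    refine ⟨⌈∑ i, ∑ j, (M : ℝ) * dist (A i) (A j)⌉₊, fun i j => ?_⟩
    refine le_trans ?_ (Nat.le_ceil _)
    have h1 : (M : ℝ) * dist (A i) (A j) ≤ ∑ j, (M : ℝ) * dist (A i) (A j) :=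
      Finset.single_le_sum (f := fun j => (M : ℝ) * dist (A i) (A j))
        (fun j _ => by positivity) (Finset.mem_univ j)
    refine h1.trans ?_
    exact Finset.single_le_sum (f := fun i => ∑ j, (M : ℝ) * dist (A i) (A j))
      (fun i _ => Finset.sum_nonneg fun j _ => by positivity) (Finset.mem_univ i)
  -- the finite union
  have hfin : (⋃ i : Fin (2 * 2 ^ r + 1), ⋃ j : Fin (2 * 2 ^ r + 1), ⋃ l : Fin (2 * 2 ^ r + 1),
      ⋃ _ : cross (A i) (A j) (A l) ≠ 0, ⋃ n ∈ Set.Icc (-(B : ℤ)) B,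
      ⋃ n' ∈ Set.Icc (-(B : ℤ)) B, {P : ℂ | dist P (A i) - dist P (A j) = (n : ℝ) / M ∧
        dist P (A i) - dist P (A l) = (n' : ℝ) / M}).Finite := by
    refine Set.finite_iUnion fun i => Set.finite_iUnion fun j => Set.finite_iUnion fun l =>
      Set.finite_iUnion fun hne => ?_
    exact (Set.finite_Icc _ _).biUnion fun n _ => (Set.finite_Icc _ _).biUnion fun n' _ =>
      fin3 _ _ _ hne _ _
  refine hfin.subset ?_
  rintro P ⟨hP, q, x, y, hq, ⟨hx, hy⟩, hxy, hfew⟩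
  choose d hdA using fun i => hX P hP (A i) (hA i)
  have ci : ∀ i, (d i) ^ 2 = q ^ 2 - 2 * (x * α i + y * β i) + γ i := by
    intro i
    have : ((d i ^ 2 : ℚ) : ℝ) = ((q ^ 2 - 2 * (x * α i + y * β i) + γ i : ℚ) : ℝ) := by
      push_cast
      rw [hdA i, hq, dist_sq, dist_sq, hα, hβ, hγ]
      have e1 : P.re - (A i).re = (P.re - O.re) - ((A i).re - O.re) := by ring
      have e2 : P.im - (A i).im = (P.im - O.im) - ((A i).im - O.im) := by ring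
      rw [e1, e2, hx, hy]
      ring
    exact_mod_cast this
  obtain ⟨i, j, l, hij, hil, hjl, n, n', hn, hn'⟩ := hmain x y q d ci hfew hxy
  have hne : cross (A i) (A j) (A l) ≠ 0 := hcol _ _ _ hij hil hjl
  have real_eq : ∀ (i j : Fin (2 * 2 ^ r + 1)) (n : ℤ), (M : ℚ) * (d i - d j) = n →
      dist P (A i) - dist P (A j) = (n : ℝ) / M ∧ n ∈ Set.Icc (-(B : ℤ)) B := by
    intro i j n h
    have h1 : (M : ℝ) * (dist P (A i) - dist P (A j)) = n := by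
      rw [← hdA i, ← hdA j]
      exact_mod_cast h
    refine ⟨?_, ?_⟩
    · rw [eq_div_iff hMr.ne', mul_comm]
      exact h1
    · have h2 : |(n : ℝ)| ≤ B := by
        rw [← h1, abs_mul, abs_of_pos hMr]
        refine le_trans (mul_le_mul_of_nonneg_left ?_ hMr.le) (hB i j)
        have := abs_dist_sub_le (A i) (A j) P
        rw [dist_comm (A i) P, dist_comm (A j) P] at this
        exact this
      rw [abs_le] at h2
      constructor
      · have h3 : ((-(B : ℤ) : ℤ) : ℝ) ≤ (n : ℝ) := by push_cast; exact h2.1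
        exact_mod_cast h3
      · have h3 : (n : ℝ) ≤ ((B : ℤ) : ℝ) := by push_cast; exact h2.2
        exact_mod_cast h3
  obtain ⟨r1, b1⟩ := real_eq i j n hn
  obtain ⟨r2, b2⟩ := real_eq i l n' hn'
  simp only [Set.mem_iUnion]
  exact ⟨i, j, l, hne, n, b1, n', b2, r1, r2⟩

/-- Theorem 1: points whose coordinates have no larger denominators than their distance -/
theorem finite_bal {X : Set ℂ} (hX : RatDist X) (r T : ℕ) (G : Finset ℂ) (hG : ∀ P ∈ G, P ∈ X)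
    (hcard : 2 ^ (r + 1) < G.card) (hgp : GenPos G)
    {O A1 A2 : ℂ} (hO : O ∈ X) (h1 : A1 ∈ X) (h2 : A2 ∈ X) :
    {P ∈ X | ∃ q x y : ℚ, (q : ℝ) = dist P O ∧
      (P.re - O.re = x * (A1.re - O.re) + y * (A2.re - O.re) ∧
       P.im - O.im = x * (A1.im - O.im) + y * (A2.im - O.im)) ∧
      (∃ n n' : ℤ, T * q.den * x = n ∧ T * q.den * y = n') ∧ Few r T q}.Finite := by
  have hle : Fintype.card (Fin (2 * 2 ^ r + 1)) ≤ Fintype.card G := by
    rw [Fintype.card_fin, Fintype.card_coe]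
    have : 2 ^ (r + 1) = 2 * 2 ^ r := by ring
    omega
  obtain ⟨e⟩ := Function.Embedding.nonempty_of_card_le hle
  refine finite_seq hX r T (fun i => (e i : ℂ)) (fun i => hG _ (e i).2) ?_ hO h1 h2
  intro i j l hij hil hjl
  exact hgp _ (e i).2 _ (e j).2 _ (e l).2 (fun h => hij (e.injective (Subtype.ext h)))
    (fun h => hil (e.injective (Subtype.ext h))) (fun h => hjl (e.injective (Subtype.ext h)))

theorem lin_bound (p : ℕ) [Fact p.Prime] (z c1 c2 c3 c4 d0 d1 d2 : ℚ) (F N : ℕ)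
    (hz : z = c1 * d0 ^ 2 + c2 * d1 ^ 2 + c3 * d2 ^ 2 + c4) (h1 : c1.den ∣ F) (h2 : c2.den ∣ F)
    (h3 : c3.den ∣ F) (h4 : c4.den ∣ F) (k0 : ‖(N : ℚ_[p]) * (d0 : ℚ_[p])‖ ≤ 1)
    (k1 : ‖(N : ℚ_[p]) * (d1 : ℚ_[p])‖ ≤ 1) (k2 : ‖(N : ℚ_[p]) * (d2 : ℚ_[p])‖ ≤ 1) :
    ‖(F : ℚ_[p]) * (N : ℚ_[p]) ^ 2 * (z : ℚ_[p])‖ ≤ 1 := by
  have hz' : (z : ℚ_[p]) = c1 * d0 ^ 2 + c2 * d1 ^ 2 + c3 * d2 ^ 2 + c4 := by
    exact_mod_cast congrArg (fun t : ℚ => (t : ℚ_[p])) hz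
  have e : (F : ℚ_[p]) * (N : ℚ_[p]) ^ 2 * (z : ℚ_[p]) =
      (F * c1) * (N * d0) ^ 2 + ((F * c2) * (N * d1) ^ 2 + ((F * c3) * (N * d2) ^ 2 +
      (N : ℚ_[p]) ^ 2 * (F * c4))) := by
    rw [hz']; ring
  have hm : ∀ (c : ℚ) (w : ℚ_[p]), c.den ∣ F → ‖w‖ ≤ 1 →
      ‖(F : ℚ_[p]) * (c : ℚ_[p]) * w ^ 2‖ ≤ 1 := by
    intro c w hc hw
    rw [norm_mul, norm_pow]
    exact mul_le_one₀ (norm_mul_den p c F hc) (by positivity) (pow_le_one₀ (norm_nonneg _) hw)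
  rw [e]
  refine (Padic.nonarchimedean _ _).trans (max_le (hm _ _ h1 k0) ?_)
  refine (Padic.nonarchimedean _ _).trans (max_le (hm _ _ h2 k1) ?_)
  refine (Padic.nonarchimedean _ _).trans (max_le (hm _ _ h3 k2) ?_)
  rw [norm_mul, norm_pow]
  exact mul_le_one₀ (pow_le_one₀ (norm_nonneg _) (norm_nat_le p N)) (norm_nonneg _)
    (norm_mul_den p c4 F h4)

/-- the coordinates are bounded by the distance at nonsplit primes -/
theorem mild_bal (k T : ℕ) (g11 g12 g22 D w : ℚ) (hD : D = g11 * g22 - g12 ^ 2) (hD0 : D ≠ 0)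
    (hDk : D = k * w ^ 2) :
    ∃ T' : ℕ, T ≤ T' ∧ ∀ (x y q : ℚ),
      q ^ 2 = g11 * x ^ 2 + 2 * g12 * x * y + g22 * y ^ 2 →
      (∀ (p : ℕ) [Fact p.Prime], IsSquare (-(k : ℚ_[p])) →
        ¬ p ∣ (T * q.den * x).den ∧ ¬ p ∣ (T * q.den * y).den) →
      ∃ n n' : ℤ, T' * q.den * x = n ∧ T' * q.den * y = n' := by
  set E : ℕ := (g11 / (4 * D)).den * (g22 / (4 * D)).den with hE
  have hEpos : 0 < E := Nat.mul_pos (Rat.den_pos _) (Rat.den_pos _)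
  refine ⟨E * T, Nat.le_mul_of_pos_left _ hEpos, ?_⟩
  intro x y q hq hs
  have hmain : ∀ (p : ℕ) [Fact p.Prime],
      ‖((E * T : ℕ) : ℚ_[p]) * ((q.den : ℕ) : ℚ_[p]) * (x : ℚ_[p])‖ ≤ 1 ∧
      ‖((E * T : ℕ) : ℚ_[p]) * ((q.den : ℕ) : ℚ_[p]) * (y : ℚ_[p])‖ ≤ 1 := by
    intro p _
    by_cases hns : IsSquare (-(k : ℚ_[p]))
    · -- split prime
      obtain ⟨b1, b2⟩ := hs p hns
      have gen : ∀ z : ℚ, ¬ p ∣ (T * q.den * z).den →
          ‖((E * T : ℕ) : ℚ_[p]) * ((q.den : ℕ) : ℚ_[p]) * (z : ℚ_[p])‖ ≤ 1 := by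
        intro z hz
        have e : ((E * T : ℕ) : ℚ_[p]) * ((q.den : ℕ) : ℚ_[p]) * (z : ℚ_[p]) =
            (E : ℚ_[p]) * ((T * q.den * z : ℚ) : ℚ_[p]) := by
          push_cast
          ring
        rw [e, norm_mul]
        exact mul_le_one₀ (norm_nat_le p _) (norm_nonneg _) (Padic.norm_rat_le_one hz)
      exact ⟨gen x b1, gen y b2⟩
    · -- nonsplit prime
      have hnsD : ¬ IsSquare (-(D : ℚ_[p])) := by
        rintro ⟨z, hz⟩
        apply hns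
        have hw : w ≠ 0 := by
          rintro rfl
          apply hD0
          rw [hDk]; ring
        have hw' : (w : ℚ_[p]) ≠ 0 := by exact_mod_cast hw
        have hDc : (D : ℚ_[p]) = (k : ℚ_[p]) * (w : ℚ_[p]) ^ 2 := by
          have := congrArg (fun t : ℚ => (t : ℚ_[p])) hDk
          push_cast at this
          exact this
        refine ⟨z / w, ?_⟩
        rw [hDc] at hz
        have : z / (w : ℚ_[p]) * (z / (w : ℚ_[p])) = (z * z) / (w : ℚ_[p]) ^ 2 := by ring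
        rw [this, ← hz]
        field_simp
      obtain ⟨b1, b2⟩ := coord_bound p g11 g12 g22 D x y q E hD hD0 (Dvd.intro _ rfl)
        (Dvd.intro_left _ rfl) hq hnsD
      have hqd : ‖((q.den : ℕ) : ℚ_[p]) * (q : ℚ_[p])‖ ≤ 1 := norm_mul_den p q _ dvd_rfl
      have gen : ∀ z : ℚ, ‖(E : ℚ_[p]) * (z : ℚ_[p])‖ ≤ ‖(q : ℚ_[p])‖ →
          ‖((E * T : ℕ) : ℚ_[p]) * ((q.den : ℕ) : ℚ_[p]) * (z : ℚ_[p])‖ ≤ 1 := by
        intro z hz
        have e : ((E * T : ℕ) : ℚ_[p]) * ((q.den : ℕ) : ℚ_[p]) * (z : ℚ_[p]) =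
            ((T : ℕ) : ℚ_[p]) * (((q.den : ℕ) : ℚ_[p]) *
            ((E : ℚ_[p]) * (z : ℚ_[p]))) := by
          push_cast
          ring
        have h5 : ‖((q.den : ℕ) : ℚ_[p]) * ((E : ℚ_[p]) * (z : ℚ_[p]))‖ ≤ 1 := by
          refine le_trans ?_ hqd
          rw [norm_mul, norm_mul ((q.den : ℕ) : ℚ_[p]) (q : ℚ_[p])]
          exact mul_le_mul_of_nonneg_left hz (norm_nonneg _)
        rw [e, norm_mul]
        exact mul_le_one₀ (norm_nat_le p _) (norm_nonneg _) h5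
      exact ⟨gen x b1, gen y b2⟩
  have toInt : ∀ z : ℚ, (∀ (p : ℕ) [Fact p.Prime],
      ‖((E * T : ℕ) : ℚ_[p]) * ((q.den : ℕ) : ℚ_[p]) * (z : ℚ_[p])‖ ≤ 1) →
      ∃ n : ℤ, ((E * T : ℕ) : ℚ) * q.den * z = n := by
    intro z hz
    apply int_of_norm
    intro p _
    have := hz p
    push_cast at this ⊢
    exact this
  obtain ⟨n, hn⟩ := toInt x fun p _ => (hmain p).1
  obtain ⟨n', hn'⟩ := toInt y fun p _ => (hmain p).2
  exact ⟨n, n', hn, hn'⟩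

/-- at the primes not dividing `N`, distances in `(1/D) Z[1/N]` give bounded coordinates -/
theorem split_bound (g11 g12 g22 D : ℚ) (hD : D = g11 * g22 - g12 ^ 2) (hD0 : D ≠ 0) (D0 : ℕ)
    (hD00 : 0 < D0) :
    ∃ T : ℕ, D0 ≤ T ∧ ∀ (p : ℕ) [Fact p.Prime] (x y q d1 d2 : ℚ),
      d1 ^ 2 = q ^ 2 - 2 * (x * g11 + y * g12) + g11 →
      d2 ^ 2 = q ^ 2 - 2 * (x * g12 + y * g22) + g22 →
      ‖(D0 : ℚ_[p]) * (q : ℚ_[p])‖ ≤ 1 → ‖(D0 : ℚ_[p]) * (d1 : ℚ_[p])‖ ≤ 1 →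
      ‖(D0 : ℚ_[p]) * (d2 : ℚ_[p])‖ ≤ 1 →
      ‖((T * x : ℚ) : ℚ_[p])‖ ≤ 1 ∧ ‖((T * y : ℚ) : ℚ_[p])‖ ≤ 1 := by
  set c1 : ℚ := (g22 - g12) / (2 * D) with hc1
  set c2 : ℚ := -(g22 / (2 * D)) with hc2
  set c3 : ℚ := g12 / (2 * D) with hc3
  set c4 : ℚ := (g11 * g22 - g22 * g12) / (2 * D) with hc4
  set c5 : ℚ := (g11 - g12) / (2 * D) with hc5
  set c6 : ℚ := -(g11 / (2 * D)) with hc6
  set c8 : ℚ := (g11 * g22 - g11 * g12) / (2 * D) with hc8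
  set F : ℕ := c1.den * (c2.den * (c3.den * (c4.den * (c5.den * (c6.den * c8.den))))) with hF
  have hFpos : 0 < F := by
    rw [hF]
    have := Rat.den_pos
    exact Nat.mul_pos (this _) (Nat.mul_pos (this _) (Nat.mul_pos (this _) (Nat.mul_pos (this _)
      (Nat.mul_pos (this _) (Nat.mul_pos (this _) (this _))))))
  have F1 : c1.den ∣ F := Dvd.intro _ rfl
  have F2 : c2.den ∣ F := (Dvd.intro _ rfl).trans (Dvd.intro_left c1.den rfl)
  have F3 : c3.den ∣ F := ((Dvd.intro _ rfl).trans (Dvd.intro_left c2.den rfl)).trans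
    (Dvd.intro_left c1.den rfl)
  have F4 : c4.den ∣ F := (((Dvd.intro _ rfl).trans (Dvd.intro_left c3.den rfl)).trans
    (Dvd.intro_left c2.den rfl)).trans (Dvd.intro_left c1.den rfl)
  have F5 : c5.den ∣ F := ((((Dvd.intro _ rfl).trans (Dvd.intro_left c4.den rfl)).trans
    (Dvd.intro_left c3.den rfl)).trans (Dvd.intro_left c2.den rfl)).trans
    (Dvd.intro_left c1.den rfl)
  have F6 : c6.den ∣ F := (((((Dvd.intro _ rfl).trans (Dvd.intro_left c5.den rfl)).trans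
    (Dvd.intro_left c4.den rfl)).trans (Dvd.intro_left c3.den rfl)).trans
    (Dvd.intro_left c2.den rfl)).trans (Dvd.intro_left c1.den rfl)
  have F8 : c8.den ∣ F := (((((Dvd.intro_left c6.den rfl).trans (Dvd.intro_left c5.den rfl)).trans
    (Dvd.intro_left c4.den rfl)).trans (Dvd.intro_left c3.den rfl)).trans
    (Dvd.intro_left c2.den rfl)).trans (Dvd.intro_left c1.den rfl)
  refine ⟨F * D0 ^ 2, ?_, ?_⟩
  · calc D0 = D0 ^ 1 := (pow_one D0).symm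
      _ ≤ D0 ^ 2 := Nat.pow_le_pow_right hD00 (by norm_num)
      _ ≤ F * D0 ^ 2 := Nat.le_mul_of_pos_left _ hFpos
  intro p _ x y q d1 d2 hd1 hd2 k0 k1 k2
  have hx : x = c1 * q ^ 2 + c2 * d1 ^ 2 + c3 * d2 ^ 2 + c4 := by
    rw [hd1, hd2, hc1, hc2, hc3, hc4]
    field_simp
    rw [hD]
    ring
  have hy : y = c5 * q ^ 2 + c3 * d1 ^ 2 + c6 * d2 ^ 2 + c8 := by
    rw [hd1, hd2, hc5, hc3, hc6, hc8]
    field_simp
    rw [hD]
    ring
  have b1 := lin_bound p x c1 c2 c3 c4 q d1 d2 F D0 hx F1 F2 F3 F4 k0 k1 k2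
  have b2 := lin_bound p y c5 c3 c6 c8 q d1 d2 F D0 hy F5 F3 F6 F8 k0 k1 k2
  constructor
  · refine le_trans (le_of_eq ?_) b1
    congr 1
    push_cast
    ring
  · refine le_trans (le_of_eq ?_) b2
    congr 1
    push_cast
    ring

end H43.RD
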